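import Pool.Agent.Lib.MP_be9f18_nt.Iso.Flow1

/-!
Module U: the flow of the units of `ℤ[θ]` on the lattices near the cubic field lattice.
`flow_upper : FlowUpper` and `block_limit`.
-/

set_option autoImplicit false

namespace Pool.Agent.Lib.MP_be9f18_nt
namespace Flow

theorem St.bounds {t1 t2 t3 u1 u2 u3 μ : ℝ} (h : St t1 t2 t3 u1 u2 u3) (hμ : 0 < μ)
    (hμu : μ ^ 2 = u3) {ch sh : ℝ}
    (hch : ch = μ * (|u1| + |u2|) / 2) (hsh : sh = μ * (|u1| - |u2|) / 2) :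
    ch ^ 2 - sh ^ 2 = 1 ∧ 1 ≤ ch ∧ ch ≤ 104535 / 100000 ∧ |sh| ≤ 30453 / 100000 := by
  have hA : 0 < μ * |u1| := mul_pos hμ (abs_pos.2 h.n1)
  have hB : 0 < μ * |u2| := mul_pos hμ (abs_pos.2 h.n2)
  have hAB : (μ * |u1|) * (μ * |u2|) = 1 := by
    calc (μ * |u1|) * (μ * |u2|) = |u1| * |u2| * μ ^ 2 := by ring
      _ = 1 := by rw [hμu, h.nrm]
  have hlo : 64 / 100 * (μ * |u2|) ≤ μ * |u1| := by nlinarith [h.lo]
  have hhi : μ * |u1| ≤ 18221 / 10000 * (μ * |u2|) := by nlinarith [h.hi]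
  set A := μ * |u1| with hAd
  set B := μ * |u2| with hBd
  have e1 : ch = (A + B) / 2 := by rw [hch, hAd, hBd]; ring
  have e2 : sh = (A - B) / 2 := by rw [hsh, hAd, hBd]; ring
  have k1 : A ≤ 134986 / 100000 := by
    by_contra hc
    push Not at hc
    nlinarith
  have k2 : 74082 / 100000 ≤ B := by
    by_contra hc
    push Not at hc
    nlinarith
  have k3 : 8 / 10 ≤ A := by
    by_contra hc
    push Not at hc
    nlinarith
  have k4 : B ≤ 125 / 100 := by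
    by_contra hc
    push Not at hc
    nlinarith
  have hd : ch ^ 2 - sh ^ 2 = 1 := by
    rw [e1, e2]
    linear_combination hAB
  have hs : |sh| ≤ 30453 / 100000 := by
    rw [abs_le, e2]
    constructor <;> linarith
  have hc0 : 0 < ch := by rw [e1]; linarith
  have hs2 : sh ^ 2 ≤ (30453 / 100000) ^ 2 := by
    rw [← sq_abs sh]
    exact pow_le_pow_left₀ (abs_nonneg _) hs 2
  refine ⟨hd, ?_, ?_, hs⟩
  · nlinarith [sq_nonneg sh]
  · by_contra hc
    push Not at hc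
    nlinarith

/-- A combination close to `1`. -/
theorem comb_near {x y ch sh : ℝ} (hd : ch ^ 2 - sh ^ 2 = 1) (h1 : 1 ≤ ch)
    (h2 : ch ≤ 104535 / 100000) (h3 : |sh| ≤ 30453 / 100000)
    (hx1 : 98 / 100 ≤ x) (hx2 : x ≤ 102 / 100) (hy : |y| ≤ 80 / 1000) :
    975 / 1000 ≤ x * ch + y * sh ∧ x * ch + y * sh ≤ 1092 / 1000 := by
  have h4 : |y * sh| ≤ 80 / 1000 * |sh| := by
    rw [abs_mul]
    exact mul_le_mul_of_nonneg_right hy (abs_nonneg _)
  have h5 := abs_le.1 h4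
  have hsq : sh ^ 2 = |sh| ^ 2 := (sq_abs sh).symm
  have hs0 := abs_nonneg sh
  constructor
  · have h6 : 98 / 100 * ch - 80 / 1000 * |sh| ≤ x * ch + y * sh := by nlinarith
    refine le_trans ?_ h6
    by_contra hc
    push Not at hc
    rw [hsq] at hd
    have h7 : 0 ≤ 98 / 100 * ch - 80 / 1000 * |sh| := by nlinarith
    nlinarith [sq_nonneg (98 / 100 * |sh| - 80 / 1000 * ch),
      mul_nonneg h7 (by linarith : (0 : ℝ) ≤ 975 / 1000 - (98 / 100 * ch - 80 / 1000 * |sh|))]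
  · nlinarith

/-- A small combination. -/
theorem comb_small {x y ch sh : ℝ} (h1 : 1 ≤ ch)
    (h2 : ch ≤ 104535 / 100000) (h3 : |sh| ≤ 30453 / 100000)
    (hx1 : 98 / 100 ≤ x) (hx2 : x ≤ 102 / 100) (hy : |y| ≤ 80 / 1000) :
    |x * sh + y * ch| ≤ 395 / 1000 := by
  have h4 : |x * sh| ≤ 102 / 100 * (30453 / 100000) := by
    rw [abs_mul]
    have : |x| = x := abs_of_pos (by linarith)
    rw [this]
    exact mul_le_mul hx2 h3 (abs_nonneg _) (by norm_num)
  have h5 : |y * ch| ≤ 80 / 1000 * (104535 / 100000) := by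
    rw [abs_mul]
    have : |ch| = ch := abs_of_pos (by linarith)
    rw [this]
    exact mul_le_mul hy h2 (by linarith) (by norm_num)
  refine (abs_add_le _ _).trans ?_
  norm_num at h4 h5 ⊢
  linarith

/-- The lower left entries. -/
theorem comb_low {σ h l x y ρ : ℝ} (hσ : σ = 1 ∨ σ = -1) (hh : |h| ≤ 1 / 1000)
    (hl : |l| ≤ 1 / 1000) (hxy : |x| + |y| ≤ 14 / 10) (hρ : 1 ≤ ρ) :
    |σ * (h * x + l * y) / ρ| ≤ 14 / 10000 := by
  have hs : |σ| = 1 := by rcases hσ with rfl | rfl <;> norm_num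
  rw [abs_div, abs_mul, hs, one_mul, abs_of_pos (by linarith : (0 : ℝ) < ρ)]
  have h1 : |h * x + l * y| ≤ 14 / 10000 := by
    refine (abs_add_le _ _).trans ?_
    rw [abs_mul, abs_mul]
    have h2 : |h| * |x| ≤ 1 / 1000 * |x| := mul_le_mul_of_nonneg_right hh (abs_nonneg _)
    have h3 : |l| * |y| ≤ 1 / 1000 * |y| := mul_le_mul_of_nonneg_right hl (abs_nonneg _)
    linarith
  calc |h * x + l * y| / ρ ≤ |h * x + l * y| / 1 :=
        div_le_div_of_nonneg_left (abs_nonneg _) one_pos hρ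
    _ ≤ 14 / 10000 := by rw [div_one]; exact h1

/-- A unit state gives a wide matrix, with `f, g` multiplied by `μ³`. -/
theorem state_mat {t1 t2 t3 a b f e d g h l c : ℝ} (R : Roots t1 t2 t3)
    (hT : Thin a b f e d g h l c) (hA : AdmT t1 t2 t3 a b f e d g h l c)
    (hD : detT a b f e d g h l c ≤ 1) {u1 u2 u3 μ : ℝ}
    (hu : St t1 t2 t3 u1 u2 u3) (hμ : 0 < μ) (hμu : μ ^ 2 = u3) :
    ∃ a' b' f' e' d' g' h' l' : ℝ, Wide a' b' e' d' c ∧
      (|f'| = |f| * μ ^ 3 ∧ |g'| = |g| * μ ^ 3 ∨ |f'| = |g| * μ ^ 3 ∧ |g'| = |f| * μ ^ 3) ∧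
      |h'| ≤ 14 / 10000 ∧ |l'| ≤ 14 / 10000 ∧ AdmT t1 t2 t3 a' b' f' e' d' g' h' l' c ∧
      detT a' b' f' e' d' g' h' l' c ≤ 1 := by
  obtain ⟨ha, hb, hf, he, hd, hg, hh, hl, hc⟩ := hT
  obtain ⟨hcs, hc1, hc2, hs⟩ := hu.bounds hμ hμu rfl rfl
  set ch := μ * (|u1| + |u2|) / 2 with hchd
  set sh := μ * (|u1| - |u2|) / 2 with hshd
  obtain ⟨σ, hσ, hM⟩ := unit_mat R hA hu.rep hu.n1 hu.n2 hμ hμu hchd hshd
  have hσ2 : σ ^ 2 = 1 := by rcases hσ with rfl | rfl <;> norm_num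
  have hσa : |σ| = 1 := by rcases hσ with rfl | rfl <;> norm_num
  have hμ1 : 1 ≤ μ := by
    by_contra hcon
    push Not at hcon
    nlinarith [hu.pos]
  have hμ3 : 1 ≤ μ ^ 3 := one_le_pow₀ hμ1
  have hμ3' : μ ^ 3 ≠ 0 := by positivity
  have habs : ∀ z : ℝ, |σ * z * μ ^ 3| = |z| * μ ^ 3 := fun z => by
    rw [abs_mul, abs_mul, hσa, one_mul, abs_of_pos (by positivity : (0 : ℝ) < μ ^ 3)]
  have hx : |ch| + |sh| ≤ 14 / 10 := by
    rw [abs_of_pos (by linarith : 0 < ch)]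
    linarith
  have hx' : |sh| + |ch| ≤ 14 / 10 := by rw [add_comm]; exact hx
  rw [abs_le] at ha hd
  have nA := comb_near (x := a) (y := b) hcs hc1 hc2 hs (by linarith) (by linarith)
    (hb.trans (by norm_num))
  have nD := comb_near (x := d) (y := e) hcs hc1 hc2 hs (by linarith) (by linarith) he
  have sA := comb_small (x := a) (y := b) hc1 hc2 hs (by linarith) (by linarith)
    (hb.trans (by norm_num))
  have sD := comb_small (x := d) (y := e) hc1 hc2 hs (by linarith) (by linarith) he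
  rcases hM with hM | hM
  · refine ⟨_, _, _, _, _, _, _, _, ⟨nA, sA, ?_, ?_, hc⟩, Or.inl ⟨habs f, habs g⟩,
      comb_low hσ hh hl hx hμ3, comb_low hσ hh hl hx' hμ3, hM, ?_⟩
    · rw [add_comm]; exact sD
    · rw [add_comm (e * sh)]; exact nD
    · refine le_trans (le_of_eq ?_) hD
      unfold detT
      field_simp
      linear_combination (ch ^ 2 - sh ^ 2) *
        (f * (e * l - d * h) - a * g * l + b * g * h) * hσ2 +
        (a * (d * c - g * l) - b * (e * c - g * h) + f * (e * l - d * h)) * hcs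
  · refine ⟨_, _, _, _, _, _, _, _, ⟨?_, ?_, sA, nA, hc⟩, Or.inr ⟨habs g, habs f⟩,
      comb_low hσ hh hl hx' hμ3, comb_low hσ hh hl hx hμ3, hM, ?_⟩
    · rw [add_comm (e * sh)]; exact nD
    · rw [add_comm (e * ch)]; exact sD
    · refine le_trans (le_of_eq ?_) hD
      unfold detT
      field_simp
      linear_combination (ch ^ 2 - sh ^ 2) *
        (f * (e * l - d * h) - a * g * l + b * g * h) * hσ2 +
        (a * (d * c - g * l) - b * (e * c - g * h) + f * (e * l - d * h)) * hcs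

/-- the flow reaches the window -/
theorem exists_state {t1 t2 t3 : ℝ} (R : Roots t1 t2 t3) {m : ℝ} (hm : 0 < m)
    (hm1 : m ≤ 1 / 1000) : ∃ u1 u2 u3 : ℝ, St t1 t2 t3 u1 u2 u3 ∧
      1 / 10 ≤ m * Real.sqrt u3 ^ 3 ∧ m * Real.sqrt u3 ^ 3 ≤ 82 / 100 := by
  have main : ∀ N : ℕ, (∃ u1 u2 u3 : ℝ, St t1 t2 t3 u1 u2 u3 ∧
      1 / 10 ≤ m * Real.sqrt u3 ^ 3 ∧ m * Real.sqrt u3 ^ 3 ≤ 82 / 100) ∨
      (∃ u1 u2 u3 : ℝ, St t1 t2 t3 u1 u2 u3 ∧ 2 ^ N ≤ u3 ∧ m * Real.sqrt u3 ^ 3 < 1 / 10) := by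
    intro N
    induction N with
    | zero =>
      refine Or.inr ⟨1, 1, 1, St.one _ _ _, by norm_num, ?_⟩
      rw [Real.sqrt_one]
      linarith
    | succ N ih =>
      rcases ih with h | ⟨u1, u2, u3, hu, hN, hlt⟩
      · exact Or.inl h
      · obtain ⟨v1, v2, v3, hv, hv1, hv2⟩ := hu.step R
        have hu0 : 0 < u3 := by linarith [hu.pos]
        have hv0 : 0 < v3 := by linarith [hv.pos]
        have hbd : m * Real.sqrt v3 ^ 3 ≤ 82 / 100 := by
          have h1 : Real.sqrt v3 ^ 3 ≤ 82 / 10 * Real.sqrt u3 ^ 3 := by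
            apply le_of_sq_le_sq _ (by positivity)
            have e1 : (Real.sqrt v3 ^ 3) ^ 2 = v3 ^ 3 := by
              rw [← pow_mul, show 3 * 2 = 2 * 3 from rfl, pow_mul, Real.sq_sqrt hv0.le]
            have e2 : (82 / 10 * Real.sqrt u3 ^ 3) ^ 2 = (82 / 10) ^ 2 * u3 ^ 3 := by
              rw [mul_pow, ← pow_mul, show 3 * 2 = 2 * 3 from rfl, pow_mul (Real.sqrt u3),
                Real.sq_sqrt hu0.le]
            rw [e1, e2]
            calc v3 ^ 3 ≤ (405 / 100 * u3) ^ 3 := pow_le_pow_left₀ hv0.le hv2 3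
              _ = (405 / 100) ^ 3 * u3 ^ 3 := by rw [mul_pow]
              _ ≤ (82 / 10) ^ 2 * u3 ^ 3 := by
                apply mul_le_mul_of_nonneg_right _ (by positivity)
                norm_num
          calc m * Real.sqrt v3 ^ 3 ≤ m * (82 / 10 * Real.sqrt u3 ^ 3) :=
                mul_le_mul_of_nonneg_left h1 hm.le
            _ = 82 / 10 * (m * Real.sqrt u3 ^ 3) := by ring
            _ ≤ 82 / 10 * (1 / 10) := by
                apply mul_le_mul_of_nonneg_left hlt.le (by norm_num)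
            _ = 82 / 100 := by norm_num
        by_cases hc : 1 / 10 ≤ m * Real.sqrt v3 ^ 3
        · exact Or.inl ⟨v1, v2, v3, hv, hc, hbd⟩
        · refine Or.inr ⟨v1, v2, v3, hv, ?_, not_le.1 hc⟩
          rw [pow_succ]
          linarith
  obtain ⟨N, hN⟩ := pow_unbounded_of_one_lt (1 / (10 * m)) (by norm_num : (1 : ℝ) < 2)
  rcases main N with h | ⟨u1, u2, u3, hu, hN', hlt⟩
  · exact h
  · exfalso
    have h1 : 1 ≤ Real.sqrt u3 := by
      rw [Real.one_le_sqrt]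
      exact hu.pos
    have h2 : u3 ≤ Real.sqrt u3 ^ 3 := by
      have h3 : Real.sqrt u3 ^ 2 = u3 := Real.sq_sqrt (by linarith [hu.pos])
      calc u3 = Real.sqrt u3 ^ 2 * 1 := by rw [h3, mul_one]
        _ ≤ Real.sqrt u3 ^ 2 * Real.sqrt u3 :=
            mul_le_mul_of_nonneg_left h1 (by positivity)
        _ = Real.sqrt u3 ^ 3 := by ring
    have h4 : 1 / (10 * m) < Real.sqrt u3 ^ 3 := lt_of_lt_of_le (lt_of_lt_of_le hN hN') h2
    rw [div_lt_iff₀ (by positivity)] at h4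
    linarith

theorem flow_upper : FlowUpper := by
  intro H3 t1 t2 t3 R a b f e d g h l c hT hA hD
  by_contra hcon
  set m := max |f| |g| with hm
  have hf : |f| ≤ m := le_max_left _ _
  have hg : |g| ≤ m := le_max_right _ _
  have hm0 : 0 < m := by
    rcases not_and_or.1 hcon with h1 | h1
    · exact lt_of_lt_of_le (abs_pos.2 h1) hf
    · exact lt_of_lt_of_le (abs_pos.2 h1) hg
  have hm1 : m ≤ 1 / 1000 := max_le hT.2.2.1 hT.2.2.2.2.2.1
  obtain ⟨u1, u2, u3, hu, hw1, hw2⟩ := exists_state R hm0 hm1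
  have hu0 : 0 < u3 := by linarith [hu.pos]
  have hμ : 0 < Real.sqrt u3 := Real.sqrt_pos.2 hu0
  obtain ⟨a', b', f', e', d', g', h', l', hW, hfg, hh', hl', hA', hD'⟩ :=
    state_mat R hT hA hD hu hμ (Real.sq_sqrt hu0.le)
  have hμ3 : 0 < Real.sqrt u3 ^ 3 := by positivity
  have hfb : |f| * Real.sqrt u3 ^ 3 ≤ 820 / 1000 := by
    calc |f| * Real.sqrt u3 ^ 3 ≤ m * Real.sqrt u3 ^ 3 := mul_le_mul_of_nonneg_right hf hμ3.le
      _ ≤ 820 / 1000 := by linarith
  have hgb : |g| * Real.sqrt u3 ^ 3 ≤ 820 / 1000 := by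
    calc |g| * Real.sqrt u3 ^ 3 ≤ m * Real.sqrt u3 ^ 3 := mul_le_mul_of_nonneg_right hg hμ3.le
      _ ≤ 820 / 1000 := by linarith
  have key : |f| * Real.sqrt u3 ^ 3 < 1 / 10 ∧ |g| * Real.sqrt u3 ^ 3 < 1 / 10 := by
    rcases hfg with ⟨q1, q2⟩ | ⟨q1, q2⟩
    · have := H3 t1 t2 t3 R a' b' f' e' d' g' h' l' c hW (by rw [q1]; exact hfb)
        (by rw [q2]; exact hgb) hh' hl' hA' hD'
      rw [q1, q2] at this
      exact this
    · have := H3 t1 t2 t3 R a' b' f' e' d' g' h' l' c hW (by rw [q1]; exact hgb)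
        (by rw [q2]; exact hfb) hh' hl' hA' hD'
      rw [q1, q2] at this
      exact this.symm
  have hmax : m * Real.sqrt u3 ^ 3 < 1 / 10 := by
    rcases max_choice |f| |g| with h1 | h1
    · rw [hm, h1]; exact key.1
    · rw [hm, h1]; exact key.2
  linarith

end Flow
end Pool.Agent.Lib.MP_be9f18_nt
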