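import Pool.Agent.Lib.MP_be9f18_nt.Iso
import Pool.Agent.Lib.MP_be9f18_nt.Block
import Pool.Agent.Lib.MP_be9f18_nt.Lower

/-!
Module U: the flow of the units of `ℤ[θ]` on the lattices near the cubic field lattice.
-/

set_option autoImplicit false

namespace Pool.Agent.Lib.MP_be9f18_nt
namespace Flow

theorem yv_ne_zero {t1 t2 t3 : ℝ} (R : Roots t1 t2 t3) {k m n : ℤ}
    (h : ¬(k = 0 ∧ m = 0 ∧ n = 0)) : yv t1 k m n ≠ 0 := by
  have h1 := R.one_le h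
  intro h0
  rw [h0] at h1
  norm_num at h1

theorem G_scale {α1 α2 β μ : ℝ} (h1 : |α1| = μ) (h2 : |α2| = μ) (h3 : |β| * μ ^ 2 = 1)
    (v1 v2 v3 : ℝ) : G (α1 * v1) (α2 * v2) (β * v3) = G v1 v2 v3 := by
  unfold G
  have e1 : (α1 * v1) ^ 2 = μ ^ 2 * v1 ^ 2 := by rw [mul_pow, ← sq_abs α1, h1]
  have e2 : (α2 * v2) ^ 2 = μ ^ 2 * v2 ^ 2 := by rw [mul_pow, ← sq_abs α2, h2]
  rw [e1, e2, ← mul_max_of_nonneg _ _ (sq_nonneg μ), abs_mul]
  linear_combination (|v3| * max (v1 ^ 2) (v2 ^ 2)) * h3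

theorem G_swap (v1 v2 v3 : ℝ) : G v1 v2 v3 = G v2 v1 v3 := by
  unfold G
  rw [max_comm]

/-- multiplication by a unit, followed by a rescaling which preserves `G` -/
theorem unit_mul {t1 t2 t3 a b f e d g h l c : ℝ} (R : Roots t1 t2 t3)
    (hA : AdmT t1 t2 t3 a b f e d g h l c) {u1 u2 u3 : ℝ}
    (hu : Block.Rep t1 t2 t3 u1 u2 u3) (h0 : u1 ≠ 0) {α1 α2 β μ : ℝ}
    (h1 : |α1| = μ) (h2 : |α2| = μ) (h3 : |β| * μ ^ 2 = 1) :
    AdmT t1 t2 t3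
      (α1 * (a * ((u1 + u2) / 2) + b * ((u1 - u2) / 2)))
      (α1 * (a * ((u1 - u2) / 2) + b * ((u1 + u2) / 2))) (α1 * (f * u3))
      (α2 * (e * ((u1 + u2) / 2) + d * ((u1 - u2) / 2)))
      (α2 * (e * ((u1 - u2) / 2) + d * ((u1 + u2) / 2))) (α2 * (g * u3))
      (β * (h * ((u1 + u2) / 2) + l * ((u1 - u2) / 2)))
      (β * (h * ((u1 - u2) / 2) + l * ((u1 + u2) / 2))) (β * (c * u3)) := by
  intro k m n hkmn
  obtain ⟨k', m', n', q1, q2, q3⟩ := hu.mul R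
    (⟨k, m, n, rfl, rfl, rfl⟩ : Block.Rep t1 t2 t3 (yv t1 k m n) (yv t2 k m n) (yv t3 k m n))
  have hne : ¬(k' = 0 ∧ m' = 0 ∧ n' = 0) := by
    rintro ⟨rfl, rfl, rfl⟩
    have h4 : u1 * yv t1 k m n = 0 := by rw [q1]; simp [yv]
    rcases mul_eq_zero.mp h4 with h5 | h5
    · exact h0 h5
    · exact (yv_ne_zero R hkmn) h5
  have key := hA k' m' n' hne
  unfold GT at key ⊢
  rw [← q1, ← q2, ← q3, ← G_scale h1 h2 h3] at key
  convert key using 2 <;> ring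

theorem AdmT.swap {t1 t2 t3 a b f e d g h l c : ℝ}
    (hA : AdmT t1 t2 t3 a b f e d g h l c) : AdmT t1 t2 t3 e d g a b f h l c := by
  intro k m n hkmn
  have key := hA k m n hkmn
  unfold GT at key ⊢
  rwa [G_swap]

/-- The matrix obtained from a unit: `ch = μ (|u₁| + |u₂|) / 2`, `sh = μ (|u₁| - |u₂|) / 2`,
`μ² = u₃`, `ρ = μ³`; `σ = ±1`, and possibly the first two rows are exchanged. -/
theorem unit_mat {t1 t2 t3 a b f e d g h l c : ℝ} (R : Roots t1 t2 t3)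
    (hA : AdmT t1 t2 t3 a b f e d g h l c) {u1 u2 u3 μ : ℝ}
    (hu : Block.Rep t1 t2 t3 u1 u2 u3) (h0 : u1 ≠ 0) (h0' : u2 ≠ 0) (hμ : 0 < μ)
    (hμu : μ ^ 2 = u3) {ch sh : ℝ}
    (hch : ch = μ * (|u1| + |u2|) / 2) (hsh : sh = μ * (|u1| - |u2|) / 2) :
    ∃ σ : ℝ, (σ = 1 ∨ σ = -1) ∧
      (AdmT t1 t2 t3 (a * ch + b * sh) (a * sh + b * ch) (σ * f * μ ^ 3)
        (e * ch + d * sh) (e * sh + d * ch) (σ * g * μ ^ 3)
        (σ * (h * ch + l * sh) / μ ^ 3) (σ * (h * sh + l * ch) / μ ^ 3) c ∨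
      AdmT t1 t2 t3 (e * sh + d * ch) (e * ch + d * sh) (σ * g * μ ^ 3)
        (a * sh + b * ch) (a * ch + b * sh) (σ * f * μ ^ 3)
        (σ * (h * sh + l * ch) / μ ^ 3) (σ * (h * ch + l * sh) / μ ^ 3) c) := by
  have hμ0 : μ ≠ 0 := hμ.ne'
  have hb : |(μ ^ 2)⁻¹| * μ ^ 2 = 1 := by
    rw [abs_of_pos (by positivity)]
    exact inv_mul_cancel₀ (by positivity)
  rcases lt_or_gt_of_ne h0 with n1 | p1 <;> rcases lt_or_gt_of_ne h0' with n2 | p2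
  · -- (-, -)
    refine ⟨-1, Or.inr rfl, Or.inl ?_⟩
    rw [abs_of_neg n1, abs_of_neg n2] at hch hsh
    have key := unit_mul R hA hu h0 (α1 := -μ) (α2 := -μ) (β := (μ ^ 2)⁻¹) (μ := μ)
      (by rw [abs_neg, abs_of_pos hμ]) (by rw [abs_neg, abs_of_pos hμ]) hb
    subst hch hsh hμu
    convert key using 1 <;> field_simp <;> ring
  · -- (-, +)
    refine ⟨-1, Or.inr rfl, Or.inr ?_⟩
    rw [abs_of_neg n1, abs_of_pos p2] at hch hsh
    have key := AdmT.swap (unit_mul R hA hu h0 (α1 := -μ) (α2 := -μ) (β := (μ ^ 2)⁻¹) (μ := μ)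
      (by rw [abs_neg, abs_of_pos hμ]) (by rw [abs_neg, abs_of_pos hμ]) hb)
    subst hch hsh hμu
    convert key using 1 <;> field_simp <;> ring
  · -- (+, -)
    refine ⟨1, Or.inl rfl, Or.inr ?_⟩
    rw [abs_of_pos p1, abs_of_neg n2] at hch hsh
    have key := AdmT.swap (unit_mul R hA hu h0 (α1 := μ) (α2 := μ) (β := (μ ^ 2)⁻¹) (μ := μ)
      (abs_of_pos hμ) (abs_of_pos hμ) hb)
    subst hch hsh hμu
    convert key using 1 <;> field_simp <;> ring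
  · -- (+, +)
    refine ⟨1, Or.inl rfl, Or.inl ?_⟩
    rw [abs_of_pos p1, abs_of_pos p2] at hch hsh
    have key := unit_mul R hA hu h0 (α1 := μ) (α2 := μ) (β := (μ ^ 2)⁻¹) (μ := μ)
      (abs_of_pos hμ) (abs_of_pos hμ) hb
    subst hch hsh hμu
    convert key using 1 <;> field_simp <;> ring


/-! ### Bounds for the roots -/

theorem t1_lo {t1 t2 t3 : ℝ} (R : Roots t1 t2 t3) : 124697 / 100000 < t1 := by
  by_contra h
  push Not at h
  have h1 := R.r1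
  have h2 := R.l1
  nlinarith [mul_nonneg (sub_nonneg.2 h) (sub_nonneg.2 h2.le), sq_nonneg t1,
    mul_nonneg (sub_nonneg.2 h) (sq_nonneg t1)]

theorem t1_hi {t1 t2 t3 : ℝ} (R : Roots t1 t2 t3) : t1 < 124698 / 100000 := by
  by_contra h
  push Not at h
  have h1 := R.r1
  have h2 := R.u1
  nlinarith [mul_nonneg (sub_nonneg.2 h) (sub_nonneg.2 h2.le), sq_nonneg t1,
    mul_nonneg (sub_nonneg.2 h) (sq_nonneg t1)]

theorem t2_lo {t1 t2 t3 : ℝ} (R : Roots t1 t2 t3) : -180194 / 100000 < t2 := by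
  by_contra h
  push Not at h
  have h1 := R.r2
  have h2 := R.l2
  have h3 := R.u2
  nlinarith [mul_nonneg (sub_nonneg.2 h) (sub_nonneg.2 h2.le), sq_nonneg t2,
    mul_nonneg (sub_nonneg.2 h) (sq_nonneg t2), mul_nonneg (sub_nonneg.2 h) (sub_nonneg.2 h3.le)]

theorem t2_hi {t1 t2 t3 : ℝ} (R : Roots t1 t2 t3) : t2 < -180193 / 100000 := by
  by_contra h
  push Not at h
  have h1 := R.r2
  have h2 := R.u2
  have h3 := R.l2
  nlinarith [mul_nonneg (sub_nonneg.2 h) (sub_nonneg.2 h2.le), sq_nonneg t2,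
    mul_nonneg (sub_nonneg.2 h) (sq_nonneg t2), mul_nonneg (sub_nonneg.2 h) (sub_nonneg.2 h3.le)]

theorem t3_lo {t1 t2 t3 : ℝ} (R : Roots t1 t2 t3) : -44505 / 100000 < t3 := by
  by_contra h
  push Not at h
  have h1 := R.r3
  have h2 := R.l3
  nlinarith [mul_nonneg (sub_nonneg.2 h) (sub_nonneg.2 h2.le), sq_nonneg t3,
    mul_nonneg (sub_nonneg.2 h) (sq_nonneg t3)]

theorem t3_hi {t1 t2 t3 : ℝ} (R : Roots t1 t2 t3) : t3 < -44504 / 100000 := by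
  by_contra h
  push Not at h
  have h1 := R.r3
  have h2 := R.u3
  nlinarith [mul_nonneg (sub_nonneg.2 h) (sub_nonneg.2 h2.le), sq_nonneg t3,
    mul_nonneg (sub_nonneg.2 h) (sq_nonneg t3)]

/-! ### The states of the flow -/

/-- A unit with `u₃ ≥ 1` and `|u₁ / u₂|` close to `1`. -/
structure St (t1 t2 t3 u1 u2 u3 : ℝ) : Prop where
  rep : Block.Rep t1 t2 t3 u1 u2 u3
  n1 : u1 ≠ 0
  n2 : u2 ≠ 0
  pos : 1 ≤ u3
  nrm : |u1| * |u2| * u3 = 1
  lo : 64 / 100 * |u2| ≤ |u1|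
  hi : |u1| ≤ 18221 / 10000 * |u2|

theorem St.one (t1 t2 t3 : ℝ) : St t1 t2 t3 1 1 1 where
  rep := Block.Rep.one
  n1 := one_ne_zero
  n2 := one_ne_zero
  pos := le_rfl
  nrm := by norm_num
  lo := by norm_num
  hi := by norm_num

theorem St.mul {t1 t2 t3 : ℝ} (R : Roots t1 t2 t3) {u1 u2 u3 : ℝ} (h : St t1 t2 t3 u1 u2 u3)
    {w1 w2 w3 : ℝ} (hw : Block.Rep t1 t2 t3 w1 w2 w3) (hn : |w1| * |w2| * w3 = 1) (h3 : 1 ≤ w3)
    (hlo : 64 / 100 * |u2 * w2| ≤ |u1 * w1|) (hhi : |u1 * w1| ≤ 18221 / 10000 * |u2 * w2|) :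
    St t1 t2 t3 (u1 * w1) (u2 * w2) (u3 * w3) where
  rep := h.rep.mul R hw
  n1 := mul_ne_zero h.n1 (by
    rintro rfl
    norm_num at hn)
  n2 := mul_ne_zero h.n2 (by
    rintro rfl
    norm_num at hn)
  pos := by nlinarith [h.pos]
  nrm := by
    rw [abs_mul, abs_mul]
    calc |u1| * |w1| * (|u2| * |w2|) * (u3 * w3) = (|u1| * |u2| * u3) * (|w1| * |w2| * w3) := by ring
      _ = 1 := by rw [h.nrm, hn, one_mul]
  lo := hlo
  hi := hhi

theorem St.step {t1 t2 t3 : ℝ} (R : Roots t1 t2 t3) {u1 u2 u3 : ℝ} (h : St t1 t2 t3 u1 u2 u3) :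
    ∃ v1 v2 v3 : ℝ, St t1 t2 t3 v1 v2 v3 ∧ 2 * u3 ≤ v3 ∧ v3 ≤ 405 / 100 * u3 := by
  have a1 := t1_lo R; have b1 := t1_hi R; have a2 := t2_lo R; have b2 := t2_hi R
  have a3 := t3_lo R; have b3 := t3_hi R
  have hp := h.pos
  have hlo := h.lo
  have hhi := h.hi
  have hu2 : 0 < |u2| := abs_pos.2 h.n2
  by_cases hr : |u1| ≤ 126 / 100 * |u2|
  · -- multiply by `2 - θ - θ²`
    have q1 : -80197 / 100000 < 2 - t1 - t1 ^ 2 := by nlinarith
    have q1' : 2 - t1 - t1 ^ 2 < -80190 / 100000 := by nlinarith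
    have q2 : 55490 / 100000 < 2 - t2 - t2 ^ 2 := by nlinarith
    have q2' : 2 - t2 - t2 ^ 2 < 55500 / 100000 := by nlinarith
    have q3 : 224695 / 100000 < 2 - t3 - t3 ^ 2 := by nlinarith
    have q3' : 2 - t3 - t3 ^ 2 < 22470 / 10000 := by nlinarith
    have r1 : |2 - t1 - t1 ^ 2| = -(2 - t1 - t1 ^ 2) := abs_of_neg (by linarith)
    have r2 : |2 - t2 - t2 ^ 2| = 2 - t2 - t2 ^ 2 := abs_of_pos (by linarith)
    have hrep : Block.Rep t1 t2 t3 (2 - t1 - t1 ^ 2) (2 - t2 - t2 ^ 2) (2 - t3 - t3 ^ 2) :=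
      ⟨2, -1, 1, by unfold yv; push_cast; ring, by unfold yv; push_cast; ring,
        by unfold yv; push_cast; ring⟩
    have hn : |2 - t1 - t1 ^ 2| * |2 - t2 - t2 ^ 2| * (2 - t3 - t3 ^ 2) = 1 := by
      have := R.norm_eq 2 (-1) 1
      have e : (NN 2 (-1) 1 : ℤ) = -1 := by decide
      rw [e] at this
      unfold yv at this
      push_cast at this
      rw [r1, r2]
      linear_combination -this
    refine ⟨_, _, _, h.mul R hrep hn (by linarith) ?_ ?_, by nlinarith, by nlinarith⟩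
    · rw [abs_mul, abs_mul, r1, r2]
      nlinarith [mul_le_mul_of_nonneg_right hlo (by linarith : (0:ℝ) ≤ -(2 - t1 - t1 ^ 2))]
    · rw [abs_mul, abs_mul, r1, r2]
      nlinarith [mul_le_mul_of_nonneg_right hr (by linarith : (0:ℝ) ≤ -(2 - t1 - t1 ^ 2))]
  · -- multiply by `4 - θ - 2θ²`
    push Not at hr
    have q1 : -35700 / 100000 < 4 - t1 - 2 * t1 ^ 2 := by nlinarith
    have q1' : 4 - t1 - 2 * t1 ^ 2 < -35680 / 100000 := by nlinarith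
    have q2 : -69210 / 100000 < 4 - t2 - 2 * t2 ^ 2 := by nlinarith
    have q2' : 4 - t2 - 2 * t2 ^ 2 < -69195 / 100000 := by nlinarith
    have q3 : 404880 / 100000 < 4 - t3 - 2 * t3 ^ 2 := by nlinarith
    have q3' : 4 - t3 - 2 * t3 ^ 2 < 404900 / 100000 := by nlinarith
    have r1 : |4 - t1 - 2 * t1 ^ 2| = -(4 - t1 - 2 * t1 ^ 2) := abs_of_neg (by linarith)
    have r2 : |4 - t2 - 2 * t2 ^ 2| = -(4 - t2 - 2 * t2 ^ 2) := abs_of_neg (by linarith)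
    have hrep : Block.Rep t1 t2 t3 (4 - t1 - 2 * t1 ^ 2) (4 - t2 - 2 * t2 ^ 2)
        (4 - t3 - 2 * t3 ^ 2) :=
      ⟨4, -1, 2, by unfold yv; push_cast; ring, by unfold yv; push_cast; ring,
        by unfold yv; push_cast; ring⟩
    have hn : |4 - t1 - 2 * t1 ^ 2| * |4 - t2 - 2 * t2 ^ 2| * (4 - t3 - 2 * t3 ^ 2) = 1 := by
      have := R.norm_eq 4 (-1) 2
      have e : (NN 4 (-1) 2 : ℤ) = 1 := by decide
      rw [e] at this
      unfold yv at this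
      push_cast at this
      rw [r1, r2]
      linear_combination this
    refine ⟨_, _, _, h.mul R hrep hn (by linarith) ?_ ?_, by nlinarith, by nlinarith⟩
    · rw [abs_mul, abs_mul, r1, r2]
      nlinarith [mul_le_mul_of_nonneg_right hr.le (by linarith : (0:ℝ) ≤ -(4 - t1 - 2 * t1 ^ 2))]
    · rw [abs_mul, abs_mul, r1, r2]
      nlinarith [mul_le_mul_of_nonneg_right hhi (by linarith : (0:ℝ) ≤ -(4 - t1 - 2 * t1 ^ 2))]

end Flow
end Pool.Agent.Lib.MP_be9f18_nt
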