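import Pool.Agent.Lib.MP_be9f18_nt.Iso.Flow1

/-!
A thin admissible matrix with `f = g = 0` has determinant at least `1`: contract the lower left
entries by units and use the block theorem.
-/

set_option autoImplicit false

namespace Pool.Agent.Lib.MP_be9f18_nt
namespace Flow

open Filter Topology

theorem reduce_aux {v1 v2 u1 u2 : ℝ} (hD : v1 * u2 - v2 * u1 ≠ 0) (l p : ℝ) : ∃ i j : ℤ,
      |l + (i * v1 + j * u1)| ≤ (|u1| + |v1|) / 2 ∧ |p + (i * v2 + j * u2)| ≤ (|u2| + |v2|) / 2 := by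
  set Δ := v1 * u2 - v2 * u1 with hΔ
  set α := (l * u2 - p * u1) / Δ with hα
  set β := (v1 * p - v2 * l) / Δ with hβ
  have ha : α * Δ = l * u2 - p * u1 := div_mul_cancel₀ _ hD
  have hb : β * Δ = v1 * p - v2 * l := div_mul_cancel₀ _ hD
  have hl : l = α * v1 + β * u1 := by
    apply mul_right_cancel₀ hD
    calc l * Δ = (l * u2 - p * u1) * v1 + (v1 * p - v2 * l) * u1 := by rw [hΔ]; ring
      _ = (α * Δ) * v1 + (β * Δ) * u1 := by rw [ha, hb]
      _ = (α * v1 + β * u1) * Δ := by ring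
  have hp : p = α * v2 + β * u2 := by
    apply mul_right_cancel₀ hD
    calc p * Δ = (l * u2 - p * u1) * v2 + (v1 * p - v2 * l) * u2 := by rw [hΔ]; ring
      _ = (α * Δ) * v2 + (β * Δ) * u2 := by rw [ha, hb]
      _ = (α * v2 + β * u2) * Δ := by ring
  have key : ∀ x y : ℝ, |(α - round α) * x + (β - round β) * y| ≤ (|y| + |x|) / 2 := by
    intro x y
    calc |(α - round α) * x + (β - round β) * y|
        ≤ |(α - round α) * x| + |(β - round β) * y| := abs_add_le _ _
      _ = |α - round α| * |x| + |β - round β| * |y| := by rw [abs_mul, abs_mul]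
      _ ≤ 1 / 2 * |x| + 1 / 2 * |y| :=
        add_le_add (mul_le_mul_of_nonneg_right (abs_sub_round α) (abs_nonneg _))
          (mul_le_mul_of_nonneg_right (abs_sub_round β) (abs_nonneg _))
      _ = (|y| + |x|) / 2 := by ring
  refine ⟨-round α, -round β, ?_, ?_⟩
  · have e : l + (((-round α : ℤ) : ℝ) * v1 + ((-round β : ℤ) : ℝ) * u1) =
        (α - round α) * v1 + (β - round β) * u1 := by
      push_cast
      linear_combination hl
    rw [e]
    exact key _ _
  · have e : p + (((-round α : ℤ) : ℝ) * v2 + ((-round β : ℤ) : ℝ) * u2) =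
        (α - round α) * v2 + (β - round β) * u2 := by
      push_cast
      linear_combination hp
    rw [e]
    exact key _ _

/-- Recurrence: there are units with `u₁ / u₂` close to `1` and `u₃` large. -/
theorem recur_aux {v1 v2 u1 u2 : ℝ} (hD : v1 * u2 - v2 * u1 ≠ 0) {δ M : ℝ} (hδ : 0 < δ)
    (hM : 0 ≤ M) : ∃ i j : ℤ, M ≤ i * v1 + j * u1 ∧ |(i : ℝ) * v2 + j * u2| ≤ δ := by
  choose i j h1 h2 using fun n : ℕ => reduce_aux hD (-((M + δ) * n)) 0
  let x : ℕ → ℝ × ℝ := fun n =>
    (-((M + δ) * n) + (i n * v1 + j n * u1), 0 + (i n * v2 + j n * u2))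
  have hx : ∀ n, x n ∈ Metric.closedBall (0 : ℝ × ℝ)
      ((|u1| + |v1|) / 2 + (|u2| + |v2|) / 2) := by
    intro n
    rw [mem_closedBall_zero_iff, Prod.norm_def]
    have q1 : 0 ≤ (|u1| + |v1|) / 2 := by positivity
    have q2 : 0 ≤ (|u2| + |v2|) / 2 := by positivity
    refine max_le ?_ ?_
    · exact (h1 n).trans (by linarith)
    · exact (h2 n).trans (by linarith)
  obtain ⟨a, _, φ, hφ, hlim⟩ := tendsto_subseq_of_bounded Metric.isBounded_closedBall hx
  have hC := hlim.cauchySeq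
  rw [Metric.cauchySeq_iff] at hC
  obtain ⟨N, hN⟩ := hC δ hδ
  have hd := hN (N + 1) (by omega) N le_rfl
  simp only [Function.comp_apply] at hd
  rw [dist_eq_norm, Prod.norm_def] at hd
  have hd1 := lt_of_le_of_lt (le_max_left _ _) hd
  have hd2 := lt_of_le_of_lt (le_max_right _ _) hd
  have hlt : φ N + 1 ≤ φ (N + 1) := hφ (Nat.lt_succ_self N)
  have hltR : (φ N : ℝ) + 1 ≤ φ (N + 1) := by exact_mod_cast hlt
  refine ⟨i (φ (N + 1)) - i (φ N), j (φ (N + 1)) - j (φ N), ?_, ?_⟩
  · rw [Real.norm_eq_abs] at hd1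
    have := (abs_lt.1 hd1).1
    simp only [x, Prod.fst_sub] at this
    push_cast
    nlinarith
  · rw [Real.norm_eq_abs] at hd2
    refine le_trans (le_of_eq ?_) hd2.le
    simp only [x, Prod.snd_sub]
    push_cast
    congr 1
    ring

theorem recur {t1 t2 t3 : ℝ} (R : Roots t1 t2 t3) {δ M : ℝ} (hδ : 0 < δ) (hM : 0 ≤ M) :
    ∃ i j : ℤ, M ≤ Real.log (Block.U t3 i j) ∧
      |Real.log (Block.U t1 i j) - Real.log (Block.U t2 i j)| ≤ δ := by
  obtain ⟨⟨a1, b1⟩, ⟨a2, b2⟩, ⟨a3, b3⟩⟩ := Block.nz R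
  have l1 := R.l1; have u1 := R.u1; have l2 := R.l2; have u2 := R.u2; have l3 := R.l3
  have u3 := R.u3
  have q1 : Real.log (t3 ^ 2) < 0 := Real.log_neg (by positivity) (by nlinarith)
  have q2 : Real.log ((1 + t3) ^ 2) < 0 := Real.log_neg (by positivity) (by nlinarith)
  have q3 : Real.log (t1 ^ 2) < Real.log (t2 ^ 2) := Real.log_lt_log (by positivity) (by nlinarith)
  have q4 : Real.log ((1 + t2) ^ 2) < Real.log ((1 + t1) ^ 2) :=
    Real.log_lt_log (by positivity) (by nlinarith)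
  obtain ⟨i, j, h1, h2⟩ := recur_aux (v1 := Real.log (t3 ^ 2)) (u1 := Real.log ((1 + t3) ^ 2))
    (v2 := Real.log (t1 ^ 2) - Real.log (t2 ^ 2))
    (u2 := Real.log ((1 + t1) ^ 2) - Real.log ((1 + t2) ^ 2)) (by
      have k1 : 0 < -Real.log (t3 ^ 2) := by linarith
      have k2 : 0 < -Real.log ((1 + t3) ^ 2) := by linarith
      have k3 : 0 < Real.log (t2 ^ 2) - Real.log (t1 ^ 2) := by linarith
      have k4 : 0 < Real.log ((1 + t1) ^ 2) - Real.log ((1 + t2) ^ 2) := by linarith
      nlinarith [mul_pos k1 k4, mul_pos k3 k2]) hδ hM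
  refine ⟨i, j, ?_, ?_⟩
  · rw [Block.log_U a3 b3]
    exact h1
  · rw [Block.log_U a1 b1, Block.log_U a2 b2]
    refine le_trans (le_of_eq ?_) h2
    congr 1
    ring

theorem block_limit {t1 t2 t3 a b e d h l c : ℝ} (R : Roots t1 t2 t3)
    (hT : Thin a b 0 e d 0 h l c) (hA : AdmT t1 t2 t3 a b 0 e d 0 h l c) :
    1 ≤ detT a b 0 e d 0 h l c := by
  obtain ⟨⟨a1, b1⟩, ⟨a2, b2⟩, ⟨a3, b3⟩⟩ := Block.nz R
  -- approximating units
  choose i j h1 h2 using fun n : ℕ => recur R (δ := 1 / ((n : ℝ) + 1)) (M := n)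
    (by positivity) (by positivity)
  let ψ : ℕ → ℝ := fun n =>
    (Real.log (Block.U t1 (i n) (j n)) - Real.log (Block.U t2 (i n) (j n))) / 2
  let ω : ℕ → ℝ := fun n => Real.exp (-(3 / 2) * Real.log (Block.U t3 (i n) (j n)))
  have hψ : Tendsto ψ atTop (𝓝 0) := by
    rw [tendsto_zero_iff_abs_tendsto_zero]
    refine squeeze_zero (fun n => abs_nonneg _) (fun n => ?_)
      (tendsto_one_div_add_atTop_nhds_zero_nat (𝕜 := ℝ))
    simp only [Function.comp_apply, ψ]
    rw [abs_div, abs_of_pos (by norm_num : (0 : ℝ) < 2)]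
    have := h2 n
    have h0 : (0 : ℝ) ≤ |Real.log (Block.U t1 (i n) (j n)) - Real.log (Block.U t2 (i n) (j n))| :=
      abs_nonneg _
    linarith
  have hω : Tendsto ω atTop (𝓝 0) := by
    apply Real.tendsto_exp_atBot.comp
    have : Tendsto (fun n => Real.log (Block.U t3 (i n) (j n))) atTop atTop :=
      tendsto_atTop_mono h1 tendsto_natCast_atTop_atTop
    exact this.const_mul_atTop_of_neg (by norm_num)
  -- the limit lattice is admissible
  have hlim : ∀ k m n : ℤ, ¬(k = 0 ∧ m = 0 ∧ n = 0) →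
      1 ≤ G (a * ((yv t1 k m n + yv t2 k m n) / 2) + b * ((yv t1 k m n - yv t2 k m n) / 2))
            (e * ((yv t1 k m n + yv t2 k m n) / 2) + d * ((yv t1 k m n - yv t2 k m n) / 2))
            (c * yv t3 k m n) := by
    intro k m n hkmn
    let Φ : ℝ → ℝ → ℝ := fun s w =>
      GT t1 t2 t3 (a * Real.cosh s + b * Real.sinh s) (a * Real.sinh s + b * Real.cosh s) 0
        (e * Real.cosh s + d * Real.sinh s) (e * Real.sinh s + d * Real.cosh s) 0
        ((h * Real.cosh s + l * Real.sinh s) * w) ((h * Real.sinh s + l * Real.cosh s) * w) c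
        k m n
    have hcont : Continuous (fun x : ℝ × ℝ => Φ x.1 x.2) := by
      simp only [Φ]
      unfold GT G
      fun_prop
    have hval : Φ 0 0 = G (a * ((yv t1 k m n + yv t2 k m n) / 2) +
        b * ((yv t1 k m n - yv t2 k m n) / 2))
            (e * ((yv t1 k m n + yv t2 k m n) / 2) + d * ((yv t1 k m n - yv t2 k m n) / 2))
            (c * yv t3 k m n) := by
      simp only [Φ]
      unfold GT
      simp
    rw [← hval]
    have htend : Tendsto (fun N => Φ (ψ N) (ω N)) atTop (𝓝 (Φ 0 0)) := by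
      have := (hcont.tendsto (0, 0)).comp (hψ.prodMk_nhds hω)
      exact this
    refine ge_of_tendsto' htend fun N => ?_
    -- the value at a unit
    have p1 := Block.U_pos a1 b1 (i N) (j N)
    have p2 := Block.U_pos a2 b2 (i N) (j N)
    have p3 := Block.U_pos a3 b3 (i N) (j N)
    have hprod := Block.U_prod R (i N) (j N)
    set w1 := Block.U t1 (i N) (j N) with hw1
    set w2 := Block.U t2 (i N) (j N) with hw2
    set w3 := Block.U t3 (i N) (j N) with hw3
    have hL : Real.log w1 + Real.log w2 + Real.log w3 = 0 := by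
      rw [← Real.log_mul p1.ne' p2.ne', ← Real.log_mul (by positivity) p3.ne', hprod,
        Real.log_one]
    set μ := Real.exp (Real.log w3 / 2) with hμd
    have hμ : 0 < μ := Real.exp_pos _
    have hμ2 : μ ^ 2 = w3 := by
      rw [hμd, ← Real.exp_nat_mul]
      have : ((2 : ℕ) : ℝ) * (Real.log w3 / 2) = Real.log w3 := by push_cast; ring
      rw [this, Real.exp_log p3]
    have hμ1 : μ * w1 = Real.exp (ψ N) := by
      have e1 : w1 = Real.exp (Real.log w1) := (Real.exp_log p1).symm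
      rw [e1, hμd, ← Real.exp_add]
      congr 1
      simp only [ψ]
      rw [← hw1, ← hw2]
      linarith
    have hμ2' : μ * w2 = Real.exp (-(ψ N)) := by
      have e1 : w2 = Real.exp (Real.log w2) := (Real.exp_log p2).symm
      rw [e1, hμd, ← Real.exp_add]
      congr 1
      simp only [ψ]
      rw [← hw1, ← hw2]
      linarith
    have hω3 : ω N * μ ^ 3 = 1 := by
      simp only [ω]
      rw [← hw3, hμd, ← Real.exp_nat_mul, ← Real.exp_add]
      have : -(3 / 2) * Real.log w3 + ((3 : ℕ) : ℝ) * (Real.log w3 / 2) = 0 := by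
        push_cast; ring
      rw [this, Real.exp_zero]
    have key := unit_mul R hA (Block.rep_U R (i N) (j N)) p1.ne' (α1 := μ) (α2 := μ)
      (β := (μ ^ 2)⁻¹) (μ := μ) (abs_of_pos hμ) (abs_of_pos hμ) (by
        rw [abs_of_pos (by positivity)]
        exact inv_mul_cancel₀ (by positivity)) k m n hkmn
    rw [← hw1, ← hw2, ← hw3] at key
    have hch : Real.cosh (ψ N) = μ * ((w1 + w2) / 2) := by
      rw [Real.cosh_eq, ← hμ1, ← hμ2']; ring
    have hsh : Real.sinh (ψ N) = μ * ((w1 - w2) / 2) := by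
      rw [Real.sinh_eq, ← hμ1, ← hμ2']; ring
    have hωe : ω N = (μ ^ 3)⁻¹ := eq_inv_of_mul_eq_one_left hω3
    simp only [Φ]
    rw [hch, hsh, hωe]
    clear_value μ w1 w2 w3
    subst hμ2
    refine le_of_le_of_eq key ?_
    congr 1 <;> first | ring1 | field_simp
  have hB := block t1 t2 t3 R a b e d c ?_ ?_ ?_ ?_ ?_ hlim
  · unfold detT
    linarith
  all_goals
    obtain ⟨ha, hb, _, he, hd, _, _, _, hc⟩ := hT
    linarith

end Flow
end Pool.Agent.Lib.MP_be9f18_nt
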